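import Pool.Agent.TH700.ForbPoly

set_option autoImplicit false

/-!
# Single-machine makespan minimization with forbidden start and end times is fixed-parameter
tractable for the number of forbidden instants
-/

namespace Pool.Agent.Results.MP_5dd24d_lc.ForbiddenTimesFPT

open Pool.Agent.NPC

/-- `S` is a feasible schedule for the jobs with processing times `p` and the forbidden instants
`F`: no job starts or ends at a forbidden instant, and jobs do not overlap. -/
def Feasible (p F : List ℕ) (S : Fin p.length → ℕ) : Prop :=
  (∀ j, S j ∉ F ∧ S j + p[j] ∉ F) ∧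
    ∀ i j, i ≠ j → S i + p[i] ≤ S j ∨ S j + p[j] ≤ S i

/-- The makespan of a schedule: the largest completion time. -/
def makespan (p : List ℕ) (S : Fin p.length → ℕ) : ℕ :=
  Finset.univ.sup (fun j : Fin p.length => S j + p[j])

/-- `S` is a feasible schedule of minimum makespan. -/
def Optimal (p F : List ℕ) (S : Fin p.length → ℕ) : Prop :=
  Feasible p F S ∧ ∀ S' : Fin p.length → ℕ, Feasible p F S' → makespan p S ≤ makespan p S'

/-- The total number of binary digits of the processing times and of the forbidden instants, plus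
one for each of these numbers. -/
def inputLength (p F : List ℕ) : ℕ :=
  (p.map (fun x => x.size + 1)).sum + (F.map (fun x => x.size + 1)).sum

lemma sz_list_nat (l : List ℕ) : sz l ≤ 4 * (l.map (fun x => x.size + 1)).sum + 1 := by
  induction l with
  | nil => simp
  | cons x l ih =>
    rw [sz_list_cons, List.map_cons, List.sum_cons]
    have := sz_nat_le x
    omega

lemma bits_le (p F : List ℕ) : (bits (p, F)).length + 1 ≤ 4 * (inputLength p F + 1) := by
  have h : (bits (p, F)).length = sz (p, F) := rfl
  have h1 := sz_list_nat p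
  have h2 := sz_list_nat F
  rw [h, sz_pair, inputLength]
  omega

/-- There are a single Turing machine, a computable function `f` and a constant `c` such that the
machine, given (in binary) the positive processing times `p` and the forbidden instants `F`,
outputs (in binary) the start times of a feasible schedule of minimum makespan, within
`f τ * (N + 1) ^ c` steps, where `τ` is the number of forbidden instants and `N` is the number of
binary digits of the instance. -/
theorem result :
    ∃ (tm : Turing.FinTM2) (e₀ : tm.Γ tm.k₀ ≃ Bool) (e₁ : tm.Γ tm.k₁ ≃ Bool)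
      (f : ℕ → ℕ) (c : ℕ), Computable f ∧
      ∀ p F : List ℕ, (∀ x ∈ p, 0 < x) →
        ∃ S : Fin p.length → ℕ, Optimal p F S ∧
          Nonempty (Turing.TM2OutputsInTime tm ((bits (p, F)).map e₀.invFun)
            (some ((bits (List.ofFn S)).map e₁.invFun))
            (f F.toFinset.card * (inputLength p F + 1) ^ c)) := by
  obtain ⟨tm, e₀, e₁, f, c, hf, h⟩ := Pool.Agent.NPC.TH700F.fpt
  refine ⟨tm, e₀, e₁, fun t => f t * 4 ^ c, c, ?_, fun p F hp => ?_⟩
  · exact Primrec.nat_mul.to_comp.comp hf (Computable.const _)
  · obtain ⟨S, h1, h2, h3⟩ := Pool.Agent.H628R2.Forb.sched_opt p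
      (Pool.Agent.H628R2.Forb.ded F) hp
    have hfeas : ∀ S' : Fin p.length → ℕ, Feasible p F S' ↔
        ((∀ j, S' j ∉ Pool.Agent.H628R2.Forb.ded F ∧
          S' j + p[j] ∉ Pool.Agent.H628R2.Forb.ded F) ∧
        (∀ i j, i ≠ j → S' i + p[i] ≤ S' j ∨ S' j + p[j] ≤ S' i)) := by
      intro S'
      simp only [Feasible, Pool.Agent.NPC.TH700F.mem_ded]
    refine ⟨S, ⟨(hfeas S).2 h2, fun S' hS' => ?_⟩, ?_⟩
    · obtain ⟨g1, g2⟩ := (hfeas S').1 hS'
      exact h3 S' g1 g2
    · obtain ⟨h'⟩ := h (p, F)
      have e1 : Pool.Agent.NPC.TH700F.alg (p, F) = List.ofFn S := h1.symm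
      have e2 : Pool.Agent.NPC.TH700F.kap (p, F) = F.toFinset.card :=
        Pool.Agent.NPC.TH700F.length_ded F
      rw [e1, e2] at h'
      refine ⟨outputs_conv rfl rfl ?_ h'⟩
      calc f F.toFinset.card * ((bits (p, F)).length + 1) ^ c
          ≤ f F.toFinset.card * (4 * (inputLength p F + 1)) ^ c :=
            Nat.mul_le_mul_left _ (Nat.pow_le_pow_left (bits_le p F) c)
        _ = f F.toFinset.card * 4 ^ c * (inputLength p F + 1) ^ c := by
            rw [mul_pow, mul_assoc]

end Pool.Agent.Results.MP_5dd24d_lc.ForbiddenTimesFPT
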